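import Pool.Agent.H717.PR.Stm

/-!
# The reduction is computable in polynomial time (helper231)
-/

set_option autoImplicit false

namespace Pool.Agent.H231.PR

open Pool.Agent.NPC Pool.Agent.H622R2 Pool.Agent.V11227.BT
open Pool.Agent.H717.PR

section poly

variable {α : Type} [TEnc α]

@[fun_prop]
theorem poly_tr {I : α → Inst} {i : α → ℕ} (hI : NPC.Poly I) (hi : NPC.Poly i) :
    NPC.Poly (fun a => tr (I a) (i a)) := by
  unfold tr
  fun_prop

theorem poly_nearB : NPC.Poly (fun p : (Inst × Lb) × Lb => nearB p.1.1 p.1.2 p.2) := by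
  unfold nearB
  fun_prop

theorem poly_farB : NPC.Poly (fun p : (Inst × Lb) × Lb => farB p.1.1 p.1.2 p.2) := by
  unfold farB
  fun_prop

theorem poly_near : NPC.Poly (fun p : (Inst × Lb) × Lb => near p.1.1 p.1.2 p.2) := by
  unfold near
  refine NPC.Poly.or poly_nearB ?_
  exact poly_nearB.comp (f := fun p : (Inst × Lb) × Lb => ((p.1.1, p.2), p.1.2)) (by fun_prop)

theorem poly_far : NPC.Poly (fun p : (Inst × Lb) × Lb => far p.1.1 p.1.2 p.2) := by
  unfold far
  refine NPC.Poly.or poly_farB ?_
  exact poly_farB.comp (f := fun p : (Inst × Lb) × Lb => ((p.1.1, p.2), p.1.2)) (by fun_prop)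

theorem poly_adj : NPC.Poly (fun p : (Inst × VL) × VL => adj p.1.2 p.2) := by
  unfold adj
  fun_prop

theorem poly_base : NPC.Poly base := by
  unfold base
  have h : NPC.Poly (fun I : Inst => List.range I.2.length) :=
    (UPoly.length (NPC.Poly.snd NPC.Poly.id)).range
  fun_prop

theorem poly_vs0 : NPC.Poly vs0 := by
  unfold vs0
  have h1 : NPC.Poly (fun I : Inst => (base I).map (fun u => ((0, (u, u)) : VL))) :=
    NPC.Poly.map (F := fun _ u => ((0, (u, u)) : VL)) poly_base (by fun_prop)
  have hnear : NPC.Poly (fun p : (Inst × Lb) × Lb => decide (near p.1.1 p.1.2 p.2 = true)) :=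
    NPC.Poly.decide_bool poly_near
  have hfar : NPC.Poly (fun p : (Inst × Lb) × Lb => decide (far p.1.1 p.1.2 p.2 = true)) :=
    NPC.Poly.decide_bool poly_far
  have hb : NPC.Poly (fun p : Inst × Lb => base p.1) :=
    poly_base.comp (f := fun p : Inst × Lb => p.1) (by fun_prop)
  have h2 : NPC.Poly (fun I : Inst => (base I).flatMap (fun u => (base I).flatMap (fun v =>
      if near I u v = true then
        ([(1, (u, v)), (2, (u, v)), (3, (u, v)), (4, (u, v))] : List VL) else []))) := by
    refine NPC.Poly.flatMap (F := fun I u => (base I).flatMap (fun v =>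
      if near I u v = true then
        ([(1, (u, v)), (2, (u, v)), (3, (u, v)), (4, (u, v))] : List VL) else [])) poly_base ?_
    refine NPC.Poly.flatMap (F := fun (p : Inst × Lb) v =>
      if near p.1 p.2 v = true then
        ([(1, (p.2, v)), (2, (p.2, v)), (3, (p.2, v)), (4, (p.2, v))] : List VL) else []) hb ?_
    exact NPC.Poly.ite hnear (by fun_prop) (by fun_prop)
  have h3 : NPC.Poly (fun I : Inst => (base I).flatMap (fun u => (base I).flatMap (fun v =>
      if far I u v = true then
        ([(5, (u, v)), (6, (u, v)), (7, (u, v)), (8, (u, v)), (9, (u, v)), (10, (u, v)),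
          (11, (u, v)), (12, (u, v)), (13, (u, v))] : List VL) else []))) := by
    refine NPC.Poly.flatMap (F := fun I u => (base I).flatMap (fun v =>
      if far I u v = true then
        ([(5, (u, v)), (6, (u, v)), (7, (u, v)), (8, (u, v)), (9, (u, v)), (10, (u, v)),
          (11, (u, v)), (12, (u, v)), (13, (u, v))] : List VL) else [])) poly_base ?_
    refine NPC.Poly.flatMap (F := fun (p : Inst × Lb) v =>
      if far p.1 p.2 v = true then
        ([(5, (p.2, v)), (6, (p.2, v)), (7, (p.2, v)), (8, (p.2, v)), (9, (p.2, v)),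
          (10, (p.2, v)), (11, (p.2, v)), (12, (p.2, v)), (13, (p.2, v))] : List VL) else []) hb ?_
    exact NPC.Poly.ite hfar (by fun_prop) (by fun_prop)
  exact h1.append (h2.append h3)

theorem poly_vs : NPC.Poly vs := ddup_poly poly_vs0

/-- the reduction is computable in polynomial time -/
theorem t_poly : S_poly :=
  mat_poly (adj := fun _ u v => adj u v) poly_vs poly_adj

end poly

end Pool.Agent.H231.PR
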